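import Mathlib
import Pool.Agent.KS6_79.CY.Main3
import Pool.Agent.KS6_79.CY.Exist
import Pool.Agent.KS6_79.CY.SEQ

/-!
# A threefold with trivial canonical divisor and gklt pairs without log terminal model

There are a projective threefold `X` with canonical singularities and `K_X = 0`, a nef `ℝ`-Cartier
divisor `β` and a prime divisor `S` on `X` such that, for all `0 ≤ ε < 1`, the generalized pair
`(X, ε S + β)` is gklt and `K_X + ε S + β = β + ε S` is pseudo-effective; but for `ε > 0` this pair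
has no log terminal model, not even a weak log canonical model.

The variety `X` is the blow-up of the quotient `E^3 / μ_3` in the image of the origin, where `E` is
the elliptic curve `y^2 = x^3 + 1`.
-/

set_option autoImplicit false

namespace Pool.Agent.Results.MP_c8c12f_ag.CalabiYauThreefold

open Pool.Agent.H436R3.Fol Pool.Agent.TH202 Pool.Agent.Y181 Pool.Agent.KS6_79.CY

/-- **Gklt pairs without log terminal model on a threefold with trivial canonical divisor.** -/
theorem result : ∃ (K : Type) (_ : Field K) (_ : Algebra ℂ K) (_ : Algebra.EssFiniteType ℂ K)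
    (T : Foliation K 3) (_ : T.space = ⊤) (X : Model K) (β S : DVal K → ℝ),
    -- the canonical divisor of `X`, given by the basis `T` of the rational vector fields, is zero
    (∀ w, IsPrimeOn X w → IsCanOrd T w 0) ∧
    -- `X` has canonical singularities
    (∀ v : DVal K, (∃ R : Subalgebra ℂ K, R.FG ∧ IsLocalRing' R v) →
      ∀ n : ℤ, IsCanOrd T v n → 0 ≤ n) ∧
    -- `β` is a nef `ℝ`-Cartier divisor on `X`
    IsNef X β ∧
    -- `S` is a prime divisor on `X` (and `ℝ`-Cartier)
    IsRCar X S ∧ (∀ v, 0 ≤ S v) ∧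
    (∃ z, IsPrimeOn X z ∧ S z = 1 ∧ ∀ w, IsPrimeOn X w → ¬ Same w z → S w = 0) ∧
    -- the pairs `(X, ε S + β)`, with `K_X + ε S + β = β + ε S`
    ∀ ε : ℝ, 0 ≤ ε → ε < 1 →
      IsGklt T X (ε • S) β (β + ε • S) ∧ IsPsef X (β + ε • S) ∧
      (0 < ε → ∀ (Y : Model K) (E : DVal K → ℝ),
        ¬ IsWeakLCModel T X (ε • S) β (β + ε • S) Y E) := by
  obtain ⟨K, iF, iA, iE, ⟨d⟩⟩ := exists_dat3
  obtain ⟨T, hT, hTs⟩ := exists_fol d
  have h := XM1.xi_alg d
  obtain ⟨s⟩ := SEQ.exists_sq d
  refine ⟨K, iF, iA, iE, TT d T hTs, scl_space T hTs _, Xd d h, bet s, Sb d,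
    fun w hw => can_zero d h T hTs hT w hw, fun v _ n hn => (can_disc d T hTs hT v n hn).1,
    POS.bet_nef h s, POS.rcar_Sb d h, POS.Sb_nonneg d, prime_S h s T hT, fun ε h0 h1 => ?_⟩
  exact ⟨gklt h s T hTs hT h0 h1, psef h s h0, fun hε Y E => no_lc h s T hTs hT hε Y E⟩

end Pool.Agent.Results.MP_c8c12f_ag.CalabiYauThreefold
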